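import Pool.Agent.H54.WM.Targets

/-!
# MAI: the extension of the embedding to HOD
-/

open Ordinal Cardinal Order Set
open scoped ZFSet

universe u

namespace Pool.Agent.H68.WM.MAI

open _root_.HD Pool.Agent.H54.WM

theorem X (hPI : T_PI.{u}) (hIDC : T_IDC.{u}) (hELE : T_ELE.{u}) (hPOW : T_POW.{u})
    (hGEN : T_GEN.{u}) : T_MAI.{u} := by
  classical
  intro ξ κ j h hC
  obtain ⟨π, hπ⟩ := hPI ξ κ j h hC
  obtain ⟨hI1, hI2⟩ := hIDC ξ κ j h π hπ
  have hjj : ∀ x (hx : HOD x), (if hx : HOD x then π (ct ξ h.lκ x hx) else ∅) =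
      π (ct ξ h.lκ x hx) := fun x hx => dif_pos hx
  refine ⟨fun x => ∃ s, π s = x, fun x => if hx : HOD x then π (ct ξ h.lκ x hx) else ∅, ?_⟩
  constructor
  · rintro _ ⟨s, rfl⟩ y hy
    exact hπ.tra s y hy
  · intro x hx
    exact ⟨_, (hjj x hx).symm⟩
  · intro φ v hv
    have h1 : ((fun x => if hx : HOD x then π (ct ξ h.lκ x hx) else ∅) ∘ v) =
        fun n => π (ct ξ h.lκ (v n) (hv n)) := by
      funext n
      exact hjj (v n) (hv n)
    rw [h1]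
    exact hELE ξ κ j h π hπ φ v hv
  · intro x hx
    exact (hjj x hx.1).trans (hI2 x hx)
  · intro x hx
    exact ⟨idt ξ x hx, hI1 x hx⟩
  · rintro _ ⟨t, rfl⟩ ht
    exact hPOW ξ κ j h π hπ t ht
  · rintro _ ⟨t, rfl⟩
    refine ⟨t.f, t.b, t.hf, t.hb, ?_⟩
    rw [hjj t.f t.hf]
    exact hGEN ξ κ j h π hπ t

end Pool.Agent.H68.WM.MAI
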